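import Pool.Agent.KS6_30.V5.L8

/-!
# All rational points of the quintic del Pezzo threefold, for all adelic anticanonical heights

`X` is the variety of the planes in the 5-dimensional space on which the three alternating forms
`p03 + p12`, `p04 + p13`, `p14 + p23` vanish (`p_ij = x_i y_j - x_j y_i`): a linear section of
codimension 3 of the Grassmannian `Gr(2, 5)` in its Pluecker embedding. It is the split form of the
smooth Fano threefold `V_5` of Picard number 1, index 2 and degree 5 (the quintic del Pezzo threefold),
and its anticanonical class is `O(2)`.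

* `wedge x y`: the Pluecker coordinates `x a * y b - x b * y a` of the plane spanned by `x` and `y`.
* `Isotropic x y`: the three alternating forms vanish at `(x, y)`.
* `IsPoint p`: the point `p` of the projective space of the Pluecker coordinates is in `X(ℚ)`: `p` is the
  class of `wedge x y`, where `x`, `y` are isotropic.
* `Cone L`: the nonzero vectors `wedge x y` over the field `L` with `x`, `y` isotropic.
* `IsFactor L ψ`: `ψ` is a positive continuous function on `X(L)`, that is, a continuous function on
  `Cone L` with positive values which does not change if the vector is multiplied by a nonzero element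
  of `L`.
* `height S ψ φ p`: the product of the standard anticanonical height `H(p) ^ 2` (`H` is the
  multiplicative height of Mathlib) with the values at `p` of the function `ψ` on `X(ℝ)` and of the
  functions `φ l` on `X(ℚ_l)` for all primes `l` in the finite set `S`. The adelic metrics on the
  anticanonical bundle differ by such functions; so these are all relative adelic heights for the
  anticanonical bundle.
* `bounded S ψ φ B`: the points of `X(ℚ)` of height at most `B`.

Theorem: for every relative adelic height for the anticanonical bundle the number of all points of `X(ℚ)`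
of height at most `B` is asymptotically equal to `c B`, with `c > 0`. (The set of all points is cothin;
so this is the asymptotic formula of the problem for `X`, where the Picard number is 1.)
-/

set_option autoImplicit false

namespace Pool.Agent.KS6_30.Old.QuinticThreefoldAllPoints

/-- The Pluecker coordinates of the plane spanned by `x` and `y`. -/
def wedge {L : Type} [CommRing L] (x y : Fin 5 → L) : Fin 5 × Fin 5 → L :=
  fun p => x p.1 * y p.2 - x p.2 * y p.1

/-- The three alternating forms vanish at `(x, y)`. -/
def Isotropic {L : Type} [CommRing L] (x y : Fin 5 → L) : Prop :=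
  x 0 * y 3 - x 3 * y 0 + (x 1 * y 2 - x 2 * y 1) = 0 ∧
  x 0 * y 4 - x 4 * y 0 + (x 1 * y 3 - x 3 * y 1) = 0 ∧
  x 1 * y 4 - x 4 * y 1 + (x 2 * y 3 - x 3 * y 2) = 0

/-- `p` is a rational point of `X`. -/
def IsPoint (p : Projectivization ℚ (Fin 5 × Fin 5 → ℚ)) : Prop :=
  ∃ x y : Fin 5 → ℚ, Isotropic x y ∧ p.rep = wedge x y

/-- The cone over `X(L)`. -/
def Cone (L : Type) [NormedField L] : Set (Fin 5 × Fin 5 → L) :=
  {q | q ≠ 0 ∧ ∃ x y : Fin 5 → L, Isotropic x y ∧ q = wedge x y}

/-- A positive continuous function on `X(L)`. -/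
structure IsFactor (L : Type) [NormedField L] (ψ : (Fin 5 × Fin 5 → L) → ℝ) : Prop where
  positive : ∀ q ∈ Cone L, 0 < ψ q
  continuous : ContinuousOn ψ (Cone L)
  invariant : ∀ a : L, a ≠ 0 → ∀ q ∈ Cone L, ψ (a • q) = ψ q

/-- The elements of `Nat.Primes` are prime numbers. -/
local instance factPrime (l : Nat.Primes) : Fact (l : ℕ).Prime := ⟨l.2⟩

/-- The height of a point, for the local factors `ψ` (real) and `φ l` (`l` in `S`). -/
noncomputable def height (S : Finset Nat.Primes) (ψ : (Fin 5 × Fin 5 → ℝ) → ℝ)
    (φ : ∀ l : Nat.Primes, (Fin 5 × Fin 5 → ℚ_[l]) → ℝ)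
    (p : Projectivization ℚ (Fin 5 × Fin 5 → ℚ)) : ℝ :=
  p.mulHeight ^ 2 * (ψ (fun q => (p.rep q : ℝ)) * ∏ l ∈ S, φ l (fun q => (p.rep q : ℚ_[l])))

/-- The rational points of `X` of height at most `B`. -/
def bounded (S : Finset Nat.Primes) (ψ : (Fin 5 × Fin 5 → ℝ) → ℝ)
    (φ : ∀ l : Nat.Primes, (Fin 5 × Fin 5 → ℚ_[l]) → ℝ) (B : ℝ) :
    Set (Projectivization ℚ (Fin 5 × Fin 5 → ℚ)) :=
  {p | IsPoint p ∧ height S ψ φ p ≤ B}

theorem result (S : Finset Nat.Primes) (ψ : (Fin 5 × Fin 5 → ℝ) → ℝ)
    (φ : ∀ l : Nat.Primes, (Fin 5 × Fin 5 → ℚ_[l]) → ℝ) (hψ : IsFactor ℝ ψ)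
    (hφ : ∀ l ∈ S, IsFactor ℚ_[l] (φ l)) :
    ∃ c : ℝ, 0 < c ∧ Filter.Tendsto (fun B : ℝ => ((bounded S ψ φ B).ncard : ℝ) / B)
      Filter.atTop (nhds c) :=
  Pool.Agent.KS6_30.V5.main_all S ψ φ ⟨hψ.positive, hψ.continuous, hψ.invariant⟩
    (fun l hl => ⟨(hφ l hl).positive, (hφ l hl).continuous, (hφ l hl).invariant⟩)

end Pool.Agent.KS6_30.Old.QuinticThreefoldAllPoints
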